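import Pool.Agent.Helper923.PNT

open Filter Topology

namespace Pool.Agent.H357R2

/-- `π(2^j) * j / 2^j → 1 / log 2`. -/
lemma tendsto_pi_two_pow :
    Tendsto (fun j : ℕ => (Nat.primeCounting (2 ^ j) : ℝ) * j / 2 ^ j) atTop (𝓝 (1 / Real.log 2)) := by
  have h := Pool.Agent.Helper923.PNT.pi_tendsto
  have hx : Tendsto (fun j : ℕ => (2 : ℝ) ^ j) atTop atTop :=
    tendsto_pow_atTop_atTop_of_one_lt (by norm_num)
  have h1 := (h.comp hx).mul_const (1 / Real.log 2)
  rw [one_mul] at h1
  refine h1.congr fun j => ?_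
  have hl : Real.log 2 ≠ 0 := (Real.log_pos (by norm_num)).ne'
  have hf : ⌊(2 : ℝ) ^ j⌋₊ = 2 ^ j := by
    rw [show ((2 : ℝ) ^ j) = ((2 ^ j : ℕ) : ℝ) by push_cast; rfl, Nat.floor_natCast]
  simp only [Function.comp]
  rw [hf, Real.log_pow]
  field_simp

lemma tendsto_pc : Tendsto (fun j : ℕ => (Nat.primeCounting (2 ^ j) : ℝ)) atTop atTop := by
  have h1 := tendsto_pi_two_pow
  have hx : Tendsto (fun j : ℕ => (2 : ℝ) ^ j / j) atTop atTop := by
    have := tendsto_pow_const_div_const_pow_of_one_lt 1 (r := (2:ℝ)) (by norm_num)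
    have h2 : Tendsto (fun j : ℕ => ((j : ℝ) ^ 1 / 2 ^ j)⁻¹) atTop atTop := by
      refine Tendsto.inv_tendsto_nhdsGT_zero ?_
      refine tendsto_nhdsWithin_iff.mpr ⟨this, ?_⟩
      filter_upwards [eventually_gt_atTop 0] with j hj
      have : (0 : ℝ) < j := by exact_mod_cast hj
      simp only [Set.mem_Ioi]
      positivity
    refine h2.congr fun j => ?_
    rw [pow_one, inv_div]
  have hl : 0 < 1 / Real.log 2 := by
    have := Real.log_pos (show (1:ℝ) < 2 by norm_num)
    positivity
  have h3 := h1.pos_mul_atTop hl hx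
  refine h3.congr' ?_
  filter_upwards [eventually_gt_atTop 0] with j hj
  have : (j : ℝ) ≠ 0 := by positivity
  field_simp

/-- `log π(2^j) / j → log 2`. -/
lemma tendsto_log_pc :
    Tendsto (fun j : ℕ => Real.log (Nat.primeCounting (2 ^ j)) / j) atTop (𝓝 (Real.log 2)) := by
  have h1 := tendsto_pi_two_pow
  have hl : 0 < Real.log 2 := Real.log_pos (by norm_num)
  have h2 := h1.log (by positivity)
  have h3 : Tendsto (fun j : ℕ => (j : ℝ)⁻¹) atTop (𝓝 0) := tendsto_inv_atTop_nhds_zero_nat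
  have h4 := h2.mul h3
  have h5 : Tendsto (fun j : ℕ => Real.log j / j) atTop (𝓝 0) := by
    have := (Real.isLittleO_log_id_atTop).tendsto_div_nhds_zero
    exact this.comp tendsto_natCast_atTop_atTop
  have h6 := (h4.sub h5).add_const (Real.log 2)
  rw [mul_zero, sub_zero, zero_add] at h6
  refine h6.congr' ?_
  filter_upwards [eventually_gt_atTop 0, tendsto_pc.eventually_gt_atTop 0] with j hj hp
  have hj' : (0 : ℝ) < j := by exact_mod_cast hj
  rw [Real.log_div (by positivity) (by positivity), Real.log_mul (by positivity) (by positivity),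
    Real.log_pow]
  field_simp
  ring

lemma tendsto_pcpc :
    Tendsto (fun j : ℕ => (Nat.primeCounting (Nat.primeCounting (2 ^ j)) : ℝ) * j ^ 2 / 2 ^ j)
      atTop (𝓝 (1 / Real.log 2 ^ 2)) := by
  have h := Pool.Agent.Helper923.PNT.pi_tendsto.comp tendsto_pc
  have hl : 0 < Real.log 2 := Real.log_pos (by norm_num)
  have h1 := (h.mul tendsto_pi_two_pow).div tendsto_log_pc hl.ne'
  have e : 1 * (1 / Real.log 2) / Real.log 2 = 1 / Real.log 2 ^ 2 := by
    field_simp
  rw [e] at h1
  refine h1.congr' ?_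
  filter_upwards [eventually_gt_atTop 0, tendsto_pc.eventually_gt_atTop 1] with j hj hp
  have hj' : (0 : ℝ) < j := by exact_mod_cast hj
  have hlp : 0 < Real.log (Nat.primeCounting (2 ^ j)) := Real.log_pos hp
  have hp0 : (0 : ℝ) < Nat.primeCounting (2 ^ j) := by linarith
  simp only [Pi.mul_apply, Pi.div_apply, Function.comp, Nat.floor_natCast]
  field_simp

/-- For every `B` there are infinitely many `j` with
`2 π(2^j) ≥ π(2^(j+1)) + π(π(2^j)) + B`. -/
lemma frequently_gain (B : ℕ) : ∃ᶠ j : ℕ in atTop,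
    Nat.primeCounting (2 ^ (j + 1)) + Nat.primeCounting (Nat.primeCounting (2 ^ j)) + B
      ≤ 2 * Nat.primeCounting (2 ^ j) := by
  intro hev
  have hl : 0 < Real.log 2 := Real.log_pos (by norm_num)
  have hl2 : 1 / 2 < Real.log 2 := by
    have := Real.log_two_gt_d9
    linarith
  set a : ℕ → ℝ := fun j => (Nat.primeCounting (2 ^ j) : ℝ) / 2 ^ j with ha
  -- the constant
  have hCC : 1 / (2 * Real.log 2 ^ 2) < 1 / Real.log 2 := by
    apply one_div_lt_one_div_of_lt hl
    nlinarith
  obtain ⟨C, hC1, hC2⟩ := exists_between hCC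
  have hC0 : 0 < C := lt_trans (by positivity) hC1
  -- eventual bound for the increments
  have hB : Tendsto (fun j : ℕ => (B : ℝ) * ((j : ℝ) ^ 2 / 2 ^ j)) atTop (𝓝 0) := by
    have := (tendsto_pow_const_div_const_pow_of_one_lt 2 (r := (2:ℝ)) (by norm_num)).const_mul
      (B : ℝ)
    rwa [mul_zero] at this
  have hsum := (tendsto_pcpc.add hB).mul_const (1 / 2 : ℝ)
  have e1 : (1 / Real.log 2 ^ 2 + 0) * (1 / 2) = 1 / (2 * Real.log 2 ^ 2) := by
    field_simp
    ring
  rw [e1] at hsum
  have hinc := hsum.eventually_lt_const hC1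
  obtain ⟨J, hJ⟩ := (hev.and (hinc.and (eventually_ge_atTop 2))).exists_forall_of_atTop
  -- the monotone sequence
  have hmono : ∀ j, J ≤ j → a j - C / ((j : ℝ) - 1) ≤ a (j + 1) - C / (((j + 1 : ℕ) : ℝ) - 1) := by
    intro j hj
    obtain ⟨h1, h2, h3⟩ := hJ j hj
    have hj2 : (2 : ℝ) ≤ j := by exact_mod_cast h3
    have hj1 : (0 : ℝ) < (j : ℝ) - 1 := by linarith
    have hj0 : (0 : ℝ) < j := by linarith
    push Not at h1
    have h1' : (2 : ℝ) * Nat.primeCounting (2 ^ j) ≤ Nat.primeCounting (2 ^ (j + 1)) +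
        Nat.primeCounting (Nat.primeCounting (2 ^ j)) + B := by
      exact_mod_cast h1.le
    have h2p : (0 : ℝ) < 2 ^ j := by positivity
    have h4 : ((Nat.primeCounting (Nat.primeCounting (2 ^ j)) : ℝ) + B) / 2 ^ (j + 1) ≤
        C / (j : ℝ) ^ 2 := by
      rw [le_div_iff₀ (by positivity)]
      have : ((Nat.primeCounting (Nat.primeCounting (2 ^ j)) : ℝ) + B) / 2 ^ (j + 1) * (j : ℝ) ^ 2
          = ((Nat.primeCounting (Nat.primeCounting (2 ^ j)) : ℝ) * j ^ 2 / 2 ^ j
            + (B : ℝ) * ((j : ℝ) ^ 2 / 2 ^ j)) * (1 / 2) := by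
        rw [pow_succ]
        field_simp
      rw [this]
      exact h2.le
    have h5 : a j ≤ a (j + 1) +
        ((Nat.primeCounting (Nat.primeCounting (2 ^ j)) : ℝ) + B) / 2 ^ (j + 1) := by
      simp only [ha]
      rw [← add_div, div_le_div_iff₀ (by positivity) (by positivity), pow_succ]
      nlinarith
    have h6 : C / (j : ℝ) ^ 2 ≤ C / ((j : ℝ) - 1) - C / j := by
      rw [div_sub_div _ _ hj1.ne' hj0.ne', div_le_div_iff₀ (by positivity) (by positivity)]
      nlinarith [mul_pos hC0 hj0]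
    push_cast
    have e2 : ((j : ℝ) + 1 - 1) = j := by ring
    rw [e2]
    linarith
  -- limit of the sequence
  have ha0 : Tendsto a atTop (𝓝 0) := by
    have h1 := tendsto_pi_two_pow.mul (tendsto_inv_atTop_nhds_zero_nat (𝕜 := ℝ))
    rw [mul_zero] at h1
    refine h1.congr' ?_
    filter_upwards [eventually_gt_atTop 0] with j hj
    have : (j : ℝ) ≠ 0 := by positivity
    simp only [ha]
    field_simp
  have hc0 : Tendsto (fun j : ℕ => C / ((j : ℝ) - 1)) atTop (𝓝 0) := by
    apply Tendsto.const_div_atTop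
    exact tendsto_atTop_add_const_right _ (-1) tendsto_natCast_atTop_atTop
  have hb0 : Tendsto (fun j : ℕ => a j - C / ((j : ℝ) - 1)) atTop (𝓝 0) := by
    simpa using ha0.sub hc0
  have hle : ∀ j, J ≤ j → a j ≤ C / ((j : ℝ) - 1) := by
    intro j hj
    have hm : Monotone (fun i : ℕ => a (j + i) - C / (((j + i : ℕ) : ℝ) - 1)) := by
      apply monotone_nat_of_le_succ
      intro i
      exact hmono (j + i) (by omega)
    have ht : Tendsto (fun i : ℕ => a (j + i) - C / (((j + i : ℕ) : ℝ) - 1)) atTop (𝓝 0) := by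
      have := hb0.comp (tendsto_add_atTop_nat j)
      refine this.congr fun i => ?_
      simp only [Function.comp]
      rw [add_comm i j]
    have := hm.ge_of_tendsto ht 0
    simp only [add_zero] at this
    linarith
  -- contradiction
  have hlim1 : Tendsto (fun j : ℕ => a j * j) atTop (𝓝 (1 / Real.log 2)) := by
    refine tendsto_pi_two_pow.congr fun j => ?_
    simp only [ha]
    ring
  have hlim2 : Tendsto (fun j : ℕ => C / ((j : ℝ) - 1) * j) atTop (𝓝 C) := by
    have h1 : Tendsto (fun j : ℕ => C + C / ((j : ℝ) - 1)) atTop (𝓝 (C + 0)) := hc0.const_add C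
    rw [add_zero] at h1
    refine h1.congr' ?_
    filter_upwards [eventually_gt_atTop 1] with j hj
    have : (1 : ℝ) < j := by exact_mod_cast hj
    have h2 : (j : ℝ) - 1 ≠ 0 := by linarith
    field_simp
    ring
  have := le_of_tendsto_of_tendsto hlim1 hlim2 (by
    filter_upwards [eventually_ge_atTop J] with j hj
    exact mul_le_mul_of_nonneg_right (hle j hj) (Nat.cast_nonneg j))
  linarith

end Pool.Agent.H357R2
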