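import Mathlib

namespace Pool.Agent.H357R2

/-- `IsComplete m k A`: the finite set `A` is the set of terms of a complete sequence in the
interval `(m, m+k]`. -/
def IsComplete (m k : ℕ) (A : Finset ℕ) : Prop :=
  (∀ a ∈ A, m < a ∧ a ≤ m + k) ∧
  (∀ a ∈ A, ∀ b ∈ A, a ≠ b → Nat.gcd a b = 1) ∧
  (∀ n, m < n → n ≤ m + k → ∃ a ∈ A, 1 < Nat.gcd n a)

/-- Every pairwise coprime subset of `(m, m+k]`, `m ≥ 1`, is at most as large as some complete
sequence in that interval. -/
lemma exists_complete_of_coprime {m k : ℕ} (hm : 1 ≤ m) (A : Finset ℕ)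
    (hA : ∀ a ∈ A, m < a ∧ a ≤ m + k)
    (hc : ∀ a ∈ A, ∀ b ∈ A, a ≠ b → Nat.gcd a b = 1) :
    ∃ B, IsComplete m k B ∧ A.card ≤ B.card := by
  classical
  set P : Finset (Finset ℕ) := (Finset.Ioc m (m + k)).powerset.filter
    (fun B => ∀ a ∈ B, ∀ b ∈ B, a ≠ b → Nat.gcd a b = 1) with hP
  have hAP : A ∈ P := by
    rw [hP, Finset.mem_filter, Finset.mem_powerset]
    refine ⟨fun a ha => Finset.mem_Ioc.mpr (hA a ha), hc⟩
  obtain ⟨B, hB, hmax⟩ := Finset.exists_max_image P Finset.card ⟨A, hAP⟩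
  refine ⟨B, ?_, hmax A hAP⟩
  rw [hP, Finset.mem_filter, Finset.mem_powerset] at hB
  refine ⟨fun a ha => Finset.mem_Ioc.mp (hB.1 ha), hB.2, ?_⟩
  intro n hn1 hn2
  by_contra hcon
  push Not at hcon
  have h1 : ∀ a ∈ B, Nat.gcd n a = 1 := by
    intro a ha
    have h2 := hcon a ha
    have h3 : 0 < Nat.gcd n a := Nat.gcd_pos_of_pos_left _ (by omega)
    omega
  have hnB : n ∉ B := by
    intro hn
    have := h1 n hn
    rw [Nat.gcd_self] at this
    omega
  have hins : insert n B ∈ P := by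
    rw [hP, Finset.mem_filter, Finset.mem_powerset]
    refine ⟨?_, ?_⟩
    · intro a ha
      rcases Finset.mem_insert.mp ha with rfl | ha
      · exact Finset.mem_Ioc.mpr ⟨hn1, hn2⟩
      · exact hB.1 ha
    · intro a ha b hb hab
      rcases Finset.mem_insert.mp ha with ha1 | ha1
      · rcases Finset.mem_insert.mp hb with hb1 | hb1
        · exact absurd (ha1.trans hb1.symm) hab
        · rw [ha1]; exact h1 b hb1
      · rcases Finset.mem_insert.mp hb with hb1 | hb1
        · rw [hb1, Nat.gcd_comm]; exact h1 a ha1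
        · exact hB.2 a ha1 b hb1 hab
  have := hmax _ hins
  rw [Finset.card_insert_of_notMem hnB] at this
  omega

/-- The same in terms of offsets from a centre `M`. -/
lemma exists_complete_of_offsets (A₀ : Finset ℤ) (M m k : ℕ) (hm : 1 ≤ m)
    (hA : ∀ x ∈ A₀, (m : ℤ) < M + x ∧ (M : ℤ) + x ≤ m + k)
    (hp : ∀ p : ℕ, p.Prime → ∀ x ∈ A₀, ∀ x' ∈ A₀, (p : ℤ) ∣ M + x → (p : ℤ) ∣ M + x' → x = x') :
    ∃ A, IsComplete m k A ∧ A₀.card ≤ A.card := by
  classical
  have hcast : ∀ x ∈ A₀, (((M : ℤ) + x).toNat : ℤ) = M + x := by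
    intro x hx
    have := hA x hx
    exact Int.toNat_of_nonneg (by omega)
  have hcard : (A₀.image (fun x : ℤ => ((M : ℤ) + x).toNat)).card = A₀.card := by
    apply Finset.card_image_of_injOn
    intro x hx x' hx' h
    have h1 := hcast x hx
    have h2 := hcast x' hx'
    simp only at h
    rw [h] at h1
    omega
  rw [← hcard]
  apply exists_complete_of_coprime hm
  · intro a ha
    obtain ⟨x, hx, rfl⟩ := Finset.mem_image.mp ha
    have h1 := hcast x hx
    have := hA x hx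
    constructor <;> omega
  · intro a ha b hb hab
    obtain ⟨x, hx, rfl⟩ := Finset.mem_image.mp ha
    obtain ⟨x', hx', rfl⟩ := Finset.mem_image.mp hb
    by_contra hne
    obtain ⟨p, hpp, hpd⟩ := Nat.exists_prime_and_dvd hne
    apply hab
    have h1 : (p : ℤ) ∣ (M : ℤ) + x := by
      rw [← hcast x hx]
      exact Int.natCast_dvd_natCast.mpr (hpd.trans (Nat.gcd_dvd_left _ _))
    have h2 : (p : ℤ) ∣ (M : ℤ) + x' := by
      rw [← hcast x' hx']
      exact Int.natCast_dvd_natCast.mpr (hpd.trans (Nat.gcd_dvd_right _ _))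
    rw [hp p hpp x hx x' hx' h1 h2]

end Pool.Agent.H357R2
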